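import Mathlib
import Pool.Agent.Helper81.HT.Basics

/-! Definitions for the 2-colouring coding the jump by sums of at most two terms. -/

namespace Pool.Agent.Helper7.HT2

open Pool.Agent.Helper81.HT

/-- `2^(2^j) - 1` -/
def MM (j : ℕ) : ℕ := 2^(2^j) - 1

/-- the minimum of `2^s * n % MM j` -/
def AA (j n : ℕ) : ℕ := Nat.findGreatest (fun r => ∀ s < 2^j, r ≤ 2^s*n % MM j) n

/-- the greatest `j` with `MM j ∣ n` -/
def th (n : ℕ) : ℕ := Nat.findGreatest (fun j => n % MM j = 0) n

/-- the phase -/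
def cph (n : ℕ) : ℕ :=
  if ∃ s < 2^(th n + 1), s % 2 = 1 ∧ 2^s*n % MM (th n + 1) = AA (th n + 1) n then 1 else 0

/-- the copy predicate -/
def cpy (m b N : ℕ) : Prop := b < N ∧ m ≤ vv (N - b) ∧ od (N - b) % 2^m = b % 2^m

instance (m b N : ℕ) : Decidable (cpy m b N) := by unfold cpy; infer_instance

/-- `t` is an event relevant for `n` -/
def PP (T : ℕ → ℕ → Prop) (n t : ℕ) : Prop := T (th n) t ∧ AA t n ≠ od n

open Classical in
/-- the last relevant event -/
noncomputable def lst (T : ℕ → ℕ → Prop) (n : ℕ) : ℕ := Nat.findGreatest (PP T n) n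

open Classical in
/-- the correction -/
noncomputable def HH (T : ℕ → ℕ → Prop) (n : ℕ) : ℕ :=
  if _h : PP T n (lst T n) ∧ AA (lst T n) n < n then
    HH T (AA (lst T n) n) + (if cpy (3 * lst T n + 10) (AA (lst T n) n) (od n) then 0 else 1)
  else 0
termination_by n
decreasing_by exact _h.2

/-- the colour -/
noncomputable def cc (T : ℕ → ℕ → Prop) (n : ℕ) : ℕ := (cph n + HH T n) % 2

end Pool.Agent.Helper7.HT2
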