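import Mathlib
import Pool.Agent.Helper7.HT2.Defs

/-! Basic facts. -/

namespace Pool.Agent.Helper7.HT2

open Pool.Agent.Helper81.HT

theorem MM_add_one (j : ℕ) : MM j + 1 = 2^(2^j) := by
  unfold MM
  have : 0 < 2^(2^j) := by positivity
  omega

theorem MM_pos (j : ℕ) : 0 < MM j := by
  have h1 := MM_add_one j
  have h2 : 2^1 ≤ 2^(2^j) := Nat.pow_le_pow_right (by norm_num) Nat.one_le_two_pow
  omega

theorem le_MM (j : ℕ) : j ≤ MM j := by
  have h1 := MM_add_one j
  have h2 : j < 2^j := Nat.lt_two_pow_self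
  have h3 : 2^j < 2^(2^j) := Nat.lt_two_pow_self
  omega

theorem MM_dvd_succ (j : ℕ) : MM j ∣ MM (j+1) := by
  refine ⟨2^(2^j) + 1, ?_⟩
  have h1 := MM_add_one j
  have h2 := MM_add_one (j+1)
  have h3 : 2^(2^(j+1)) = 2^(2^j) * 2^(2^j) := by
    rw [← pow_add, pow_succ]; congr 1; ring
  rw [← h1] at h3 ⊢
  have h4 : (MM (j+1) : ℤ) + 1 = (MM j + 1) * (MM j + 1) := by
    have := h2.trans h3
    exact_mod_cast this
  have h5 : (MM (j+1) : ℤ) = MM j * (MM j + 1 + 1) := by linarith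
  exact_mod_cast h5

theorem MM_dvd {i j : ℕ} (h : i ≤ j) : MM i ∣ MM j := by
  induction j, h using Nat.le_induction with
  | base => exact dvd_rfl
  | succ j _ ih => exact ih.trans (MM_dvd_succ j)

theorem MM_odd (j : ℕ) : MM j % 2 = 1 := by
  have h1 := MM_add_one j
  have h2 : 2 ∣ 2^(2^j) := dvd_pow_self 2 (by positivity)
  omega

theorem MM_strictMono : StrictMono MM := by
  refine strictMono_nat_of_lt_succ (fun j => ?_)
  have h1 := MM_add_one j
  have h2 := MM_add_one (j+1)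
  have h3 : 2^(2^j) < 2^(2^(j+1)) :=
    Nat.pow_lt_pow_right (by norm_num) (Nat.pow_lt_pow_right (by norm_num) (by omega))
  omega

theorem MM_coprime_two_pow (j k : ℕ) : Nat.Coprime (MM j) (2^k) := by
  refine Nat.Coprime.pow_right _ ?_
  rw [Nat.coprime_two_right, Nat.odd_iff]
  exact MM_odd j

/-- the period of the doubling orbit -/
theorem period (j n : ℕ) (s : ℕ) : 2^(s + 2^j)*n % MM j = 2^s*n % MM j := by
  rw [pow_add, ← MM_add_one j]
  have : 2^s * (MM j + 1) * n = 2^s*n + MM j * (2^s*n) := by ring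
  rw [this, Nat.add_mul_mod_self_left]

theorem period_mod (j n s : ℕ) : 2^(s % 2^j)*n % MM j = 2^s*n % MM j := by
  have h : ∀ q s, 2^(s + 2^j*q)*n % MM j = 2^s*n % MM j := by
    intro q
    induction q with
    | zero => intro s; simp
    | succ q ih =>
      intro s
      have e : s + 2^j*(q+1) = (s + 2^j*q) + 2^j := by ring
      rw [e, period, ih]
  have := h (s / 2^j) (s % 2^j)
  rw [Nat.mod_add_div] at this
  exact this.symm

theorem AA_spec (j n : ℕ) : ∀ s < 2^j, AA j n ≤ 2^s*n % MM j := by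
  have := Nat.findGreatest_spec (P := fun r => ∀ s < 2^j, r ≤ 2^s*n % MM j) (m := 0) (n := n)
    (Nat.zero_le _) (fun s _ => Nat.zero_le _)
  exact this

/-- `AA` is a lower bound of the orbit -/
theorem AA_le (j n s : ℕ) : AA j n ≤ 2^s*n % MM j := by
  rw [← period_mod]
  exact AA_spec j n _ (Nat.mod_lt _ (by positivity))

theorem le_AA {j n r : ℕ} (h : ∀ s < 2^j, r ≤ 2^s*n % MM j) : r ≤ AA j n := by
  refine Nat.le_findGreatest ?_ h
  have := h 0 (by positivity)
  rw [pow_zero, one_mul] at this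
  exact this.trans (Nat.mod_le _ _)

/-- `AA` is attained -/
theorem AA_mem (j n : ℕ) : ∃ s < 2^j, 2^s*n % MM j = AA j n := by
  by_contra hc
  push Not at hc
  have : AA j n + 1 ≤ AA j n := by
    refine le_AA (fun s hs => ?_)
    have h1 := AA_le j n s
    have h2 := hc s hs
    omega
  omega

theorem mul_mod_congr {M n n' : ℕ} (h : n % M = n' % M) (s : ℕ) : s*n % M = s*n' % M := by
  rw [Nat.mul_mod, h, ← Nat.mul_mod]

theorem AA_congr {j n n' : ℕ} (h : n % MM j = n' % MM j) : AA j n = AA j n' := by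
  refine le_antisymm ?_ ?_
  · refine le_AA (fun s _ => ?_)
    rw [← mul_mod_congr h]
    exact AA_le j n s
  · refine le_AA (fun s _ => ?_)
    rw [mul_mod_congr h]
    exact AA_le j n' s

theorem AA_two_mul (j n : ℕ) : AA j (2*n) = AA j n := by
  refine le_antisymm ?_ ?_
  · refine le_AA (fun s _ => ?_)
    have h1 := AA_le j (2*n) (s + 2^j - 1)
    have hp : 0 < 2^j := by positivity
    have e : 2^(s + 2^j - 1) * (2*n) = 2^(s+2^j) * n := by
      rw [← mul_assoc, ← pow_succ]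
      congr 2
      omega
    rw [e, period] at h1
    exact h1
  · refine le_AA (fun s _ => ?_)
    have h1 := AA_le j n (s+1)
    have e : 2^(s+1) * n = 2^s * (2*n) := by rw [pow_succ]; ring
    rw [e] at h1
    exact h1

theorem AA_pow_mul (j k n : ℕ) : AA j (2^k*n) = AA j n := by
  induction k with
  | zero => simp
  | succ k ih =>
    have e : 2^(k+1)*n = 2*(2^k*n) := by rw [pow_succ]; ring
    rw [e, AA_two_mul, ih]

theorem AA_mono {i j : ℕ} (h : i ≤ j) (n : ℕ) : AA i n ≤ AA j n := by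
  obtain ⟨s, _, hs⟩ := AA_mem j n
  rw [← hs]
  have h1 := AA_le i n s
  have h2 : 2^s*n % MM j % MM i = 2^s*n % MM i := Nat.mod_mod_of_dvd _ (MM_dvd h)
  rw [← h2] at h1
  exact h1.trans (Nat.mod_le _ _)

theorem od_le {n : ℕ} (hn : 0 < n) : od n ≤ n := by
  have h1 := (od_spec hn).1
  have h2 : 0 < 2^(vv n) := by positivity
  nlinarith

theorem od_pos {n : ℕ} (hn : 0 < n) : 0 < od n := by
  have := (od_spec hn).2
  omega

theorem od_pow_mul (k : ℕ) {n : ℕ} (hn : 0 < n) : od (2^k*n) = od n := by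
  have h1 := od_spec hn
  refine od_eq (k := k + vv n) h1.2 ?_
  rw [pow_add, mul_assoc, ← h1.1]

theorem vv_pow_mul (k : ℕ) {n : ℕ} (hn : 0 < n) : vv (2^k*n) = k + vv n := by
  have h1 := od_spec hn
  refine vv_eq (b := od n) h1.2 ?_
  rw [pow_add, mul_assoc, ← h1.1]

theorem AA_od (j : ℕ) {n : ℕ} (hn : 0 < n) : AA j (od n) = AA j n := by
  have h1 := (od_spec hn).1
  conv_rhs => rw [h1]
  rw [AA_pow_mul]

theorem AA_le_od (j : ℕ) {n : ℕ} (hn : 0 < n) : AA j n ≤ od n := by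
  rw [← AA_od j hn]
  have := AA_le j (od n) 0
  rw [pow_zero, one_mul] at this
  exact this.trans (Nat.mod_le _ _)

theorem AA_eq_od {j n : ℕ} (hn : 0 < n) (h : n ≤ j) : AA j n = od n := by
  refine le_antisymm (AA_le_od j hn) ?_
  have hN := (od_spec hn).2
  have hNj : od n ≤ j := (od_le hn).trans h
  rw [← AA_od j hn]
  generalize od n = N at hN hNj
  obtain ⟨i, rfl⟩ : ∃ i, j = i + 1 := ⟨j - 1, by omega⟩
  -- `B = 2^i`, half the period
  have hB : N < 2^(2^i) := by
    have h1 : i < 2^i := Nat.lt_two_pow_self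
    have h2 : N ≤ 2^i := by omega
    exact lt_of_lt_of_le Nat.lt_two_pow_self (Nat.pow_le_pow_right (by norm_num) h2)
  have hM := MM_add_one (i+1)
  have hsq : 2^(2^(i+1)) = 2^(2^i) * 2^(2^i) := by
    rw [← pow_add, pow_succ]; congr 1; ring
  have hB2 : 2 ≤ 2^(2^i) := by
    have : 2^1 ≤ 2^(2^i) := Nat.pow_le_pow_right (by norm_num) Nat.one_le_two_pow
    omega
  have hhalf : 2^(2^i) * N < MM (i+1) := by
    have h3 : N + 1 ≤ 2^(2^i) := hB
    have h4 : 2^(2^i) * (N + 1) ≤ 2^(2^i) * 2^(2^i) := Nat.mul_le_mul_left _ h3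
    have h5 : 2^(2^i) * (N + 1) = 2^(2^i) * N + 2^(2^i) := by ring
    omega
  have hNM : N < MM (i+1) := by nlinarith
  refine le_AA (fun s hs => ?_)
  by_cases hsi : s ≤ 2^i
  · have h3 : 2^s ≤ 2^(2^i) := Nat.pow_le_pow_right (by norm_num) hsi
    have h4 : 2^s * N ≤ 2^(2^i) * N := Nat.mul_le_mul_right _ h3
    rw [Nat.mod_eq_of_lt (lt_of_le_of_lt h4 hhalf)]
    have : 0 < 2^s := by positivity
    nlinarith
  · by_contra hlt
    push Not at hlt hsi
    obtain ⟨u, hu⟩ : ∃ u, s + u = 2^(i+1) := ⟨2^(i+1) - s, by omega⟩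
    have hu1 : 1 ≤ u := by omega
    have hui : u ≤ 2^i := by
      have : 2^(i+1) = 2^i + 2^i := by rw [pow_succ]; ring
      omega
    set r := 2^s * N % MM (i+1) with hr
    have h1 : 2^u * r % MM (i+1) = N % MM (i+1) := by
      rw [hr, Nat.mul_mod, Nat.mod_mod, ← Nat.mul_mod, ← mul_assoc, ← pow_add, add_comm u s, hu]
      have := period (i+1) N 0
      rw [zero_add, pow_zero, one_mul] at this
      exact this
    have h2 : 2^u * r < MM (i+1) := by
      have h3 : 2^u ≤ 2^(2^i) := Nat.pow_le_pow_right (by norm_num) hui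
      have h4 : 2^u * r ≤ 2^(2^i) * N := Nat.mul_le_mul h3 hlt.le
      exact lt_of_le_of_lt h4 hhalf
    rw [Nat.mod_eq_of_lt h2, Nat.mod_eq_of_lt hNM] at h1
    have h5 : 2 ∣ 2^u * r := Dvd.dvd.mul_right (dvd_pow_self 2 (by omega)) _
    omega

theorem th_spec (n : ℕ) : MM (th n) ∣ n := by
  have := Nat.findGreatest_spec (P := fun j => n % MM j = 0) (m := 0) (n := n)
    (Nat.zero_le _) (by show n % MM 0 = 0; exact Nat.mod_one n)
  exact Nat.dvd_of_mod_eq_zero this

theorem th_iff {j n : ℕ} (hn : 0 < n) : MM j ∣ n ↔ j ≤ th n := by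
  constructor
  · intro h
    refine Nat.le_findGreatest ?_ (Nat.mod_eq_zero_of_dvd h)
    exact (le_MM j).trans (Nat.le_of_dvd hn h)
  · intro h
    exact (MM_dvd h).trans (th_spec n)

theorem th_le {n : ℕ} : th n ≤ n := Nat.findGreatest_le _

theorem MM_th_le {n : ℕ} (hn : 0 < n) : MM (th n) ≤ n := Nat.le_of_dvd hn (th_spec n)

theorem not_dvd_th {n : ℕ} (hn : 0 < n) : ¬ MM (th n + 1) ∣ n := by
  rw [th_iff hn]; omega

theorem th_eq_of {j n : ℕ} (hn : 0 < n) (h1 : MM j ∣ n) (h2 : ¬ MM (j+1) ∣ n) : th n = j := by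
  rw [th_iff hn] at h1 h2
  omega

theorem MM_dvd_pow_mul {j k n : ℕ} : MM j ∣ 2^k*n ↔ MM j ∣ n :=
  ⟨fun h => (MM_coprime_two_pow j k).dvd_of_dvd_mul_left h, fun h => Dvd.dvd.mul_left h _⟩

theorem th_pow_mul (k : ℕ) {n : ℕ} (hn : 0 < n) : th (2^k*n) = th n := by
  refine th_eq_of (by positivity) ?_ ?_
  · rw [MM_dvd_pow_mul]; exact th_spec n
  · rw [MM_dvd_pow_mul]; exact not_dvd_th hn

theorem th_two_mul {n : ℕ} (hn : 0 < n) : th (2*n) = th n := by
  have := th_pow_mul 1 hn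
  rwa [pow_one] at this

/-- the parity of the phase is well defined -/
theorem phase_unique {j n s s' : ℕ} (hn : ¬ MM j ∣ n) (h : 2^s*n % MM j = 2^s'*n % MM j) :
    s % 2 = s' % 2 := by
  wlog hle : s ≤ s' generalizing s s' with H
  · exact (H h.symm (by omega)).symm
  by_contra hne
  obtain ⟨d, rfl⟩ : ∃ d, s' = s + d := ⟨s' - s, by omega⟩
  have hd : d % 2 = 1 := by omega
  have h1 : MM j ∣ 2^(s+d)*n - 2^s*n := (Nat.modEq_iff_dvd' (by
    refine Nat.mul_le_mul_right _ (Nat.pow_le_pow_right (by norm_num) (by omega)))).1 h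
  have h2 : 2^(s+d)*n - 2^s*n = 2^s * ((2^d - 1) * n) := by
    rw [pow_add, Nat.sub_mul, one_mul, Nat.mul_sub, mul_assoc]
  rw [h2, MM_dvd_pow_mul] at h1
  have hcop : Nat.Coprime (MM j) (2^d - 1) := by
    unfold MM Nat.Coprime
    rw [Nat.pow_sub_one_gcd_pow_sub_one]
    have : Nat.gcd (2^j) d = 1 := by
      have : Nat.Coprime 2 d := by
        rw [Nat.coprime_two_left, Nat.odd_iff]; exact hd
      exact Nat.Coprime.pow_left j this
    rw [this]
    norm_num
  exact hn (hcop.dvd_of_dvd_mul_left h1)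

theorem cph_le_one (n : ℕ) : cph n ≤ 1 := by
  unfold cph; split_ifs <;> omega

/-- the phase from any exponent -/
theorem cph_eq {n s : ℕ} (hn : 0 < n) (h : 2^s*n % MM (th n + 1) = AA (th n + 1) n) :
    cph n = s % 2 := by
  unfold cph
  split_ifs with hc
  · obtain ⟨s', _, h1, h2⟩ := hc
    have := phase_unique (not_dvd_th hn) (h.trans h2.symm)
    omega
  · by_contra hne
    refine hc ⟨s % 2^(th n + 1), Nat.mod_lt _ (by positivity), ?_, ?_⟩
    · have : s % 2^(th n + 1) % 2 = s % 2 :=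
        Nat.mod_mod_of_dvd _ (dvd_pow_self 2 (by omega))
      omega
    · rw [period_mod]; exact h

/-- the phase flips when doubling -/
theorem cph_two_mul {n : ℕ} (hn : 0 < n) : (cph (2*n) + cph n) % 2 = 1 := by
  obtain ⟨s, _, hs⟩ := AA_mem (th n + 1) n
  have h1 := cph_eq hn hs
  have h2 : cph (2*n) = (s + 2^(th n + 1) - 1) % 2 := by
    refine cph_eq (by omega) ?_
    rw [th_two_mul hn, AA_two_mul, ← hs]
    have hp : 0 < 2^(th n + 1) := by positivity
    have e : 2^(s + 2^(th n + 1) - 1) * (2*n) = 2^(s+2^(th n + 1)) * n := by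
      rw [← mul_assoc, ← pow_succ]
      congr 2
      omega
    rw [e, period]
  have h3 : 2 ∣ 2^(th n + 1) := dvd_pow_self 2 (by omega)
  have hp : 0 < 2^(th n + 1) := by positivity
  omega

theorem dvd_congr {J j n n' : ℕ} (hj : j ≤ J) (h : n % MM J = n' % MM J) :
    MM j ∣ n ↔ MM j ∣ n' := by
  have h1 : n % MM j = n' % MM j := by
    rw [← Nat.mod_mod_of_dvd n (MM_dvd hj), h, Nat.mod_mod_of_dvd _ (MM_dvd hj)]
  rw [Nat.dvd_iff_mod_eq_zero, Nat.dvd_iff_mod_eq_zero, h1]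

theorem th_congr {J n n' : ℕ} (hn : 0 < n) (hn' : 0 < n') (hJ : th n < J)
    (h : n % MM J = n' % MM J) : th n' = th n := by
  refine th_eq_of hn' ?_ ?_
  · rw [← dvd_congr hJ.le h]; exact th_spec n
  · rw [← dvd_congr hJ h]; exact not_dvd_th hn

theorem AA_congr_le {J j n n' : ℕ} (hj : j ≤ J) (h : n % MM J = n' % MM J) :
    AA j n = AA j n' := by
  refine AA_congr ?_
  rw [← Nat.mod_mod_of_dvd n (MM_dvd hj), h, Nat.mod_mod_of_dvd _ (MM_dvd hj)]

theorem cph_congr {J n n' : ℕ} (hn : 0 < n) (hn' : 0 < n') (hJ : th n < J)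
    (h : n % MM J = n' % MM J) : cph n' = cph n := by
  obtain ⟨s, _, hs⟩ := AA_mem (th n + 1) n
  rw [cph_eq hn hs]
  refine cph_eq hn' ?_
  rw [th_congr hn hn' hJ h, ← AA_congr_le hJ h, ← hs]
  refine mul_mod_congr ?_ _
  rw [← Nat.mod_mod_of_dvd n' (MM_dvd hJ), ← h, Nat.mod_mod_of_dvd _ (MM_dvd hJ)]

theorem HH_zero (T : ℕ → ℕ → Prop) : HH T 0 = 0 := by
  rw [HH, dif_neg]
  rintro ⟨_, h⟩
  omega

/-- no relevant event -/
theorem HH_none {T : ℕ → ℕ → Prop} {n : ℕ} (hn : 0 < n)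
    (h : ∀ t, T (th n) t → AA t n = od n) :
    HH T n = 0 := by
  have _ := hn
  rw [HH, dif_neg]
  rintro ⟨hc, _⟩
  exact hc.2 (h _ hc.1)

theorem PP_lt {T : ℕ → ℕ → Prop} {n t : ℕ} (hn : 0 < n) (h : PP T n t) : t < n := by
  by_contra hc
  exact h.2 (AA_eq_od hn (by omega))

theorem lst_eq {T : ℕ → ℕ → Prop} {n t : ℕ} (hn : 0 < n) (h : PP T n t)
    (hmax : ∀ t', PP T n t' → t' ≤ t) : lst T n = t := by
  classical
  unfold lst
  refine le_antisymm ?_ (Nat.le_findGreatest (PP_lt hn h).le h)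
  exact hmax _ (Nat.findGreatest_spec (PP_lt hn h).le h)

/-- last relevant event -/
theorem HH_some {T : ℕ → ℕ → Prop} {n t : ℕ} (hn : 0 < n) (h : T (th n) t) (ht : AA t n ≠ od n)
    (hmax : ∀ t', T (th n) t' → t < t' → AA t' n = od n) :
    HH T n = HH T (AA t n) + (if cpy (3*t+10) (AA t n) (od n) then 0 else 1) := by
  have hP : PP T n t := ⟨h, ht⟩
  have hl : lst T n = t := by
    refine lst_eq hn hP (fun t' ht' => ?_)
    by_contra hc
    exact ht'.2 (hmax t' ht'.1 (by omega))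
  have hlt : AA t n < n := by
    have h1 := AA_le_od t hn
    have h2 := od_le hn
    omega
  conv_lhs => rw [HH]
  rw [dif_pos (by rw [hl]; exact ⟨hP, hlt⟩), hl]

theorem PP_pow_mul {T : ℕ → ℕ → Prop} (k : ℕ) {n : ℕ} (hn : 0 < n) (t : ℕ) :
    PP T (2^k*n) t ↔ PP T n t := by
  unfold PP
  rw [th_pow_mul k hn, AA_pow_mul, od_pow_mul k hn]

/-- a relevant event has a last one -/
theorem exists_last {T : ℕ → ℕ → Prop} {n t : ℕ} (hn : 0 < n) (h : PP T n t) :
    ∃ t, PP T n t ∧ ∀ t', PP T n t' → t' ≤ t := by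
  classical
  refine ⟨Nat.findGreatest (PP T n) n, Nat.findGreatest_spec (PP_lt hn h).le h, ?_⟩
  intro t' ht'
  exact Nat.le_findGreatest (PP_lt hn ht').le ht'

theorem HH_pow_mul (T : ℕ → ℕ → Prop) (k n : ℕ) : HH T (2^k*n) = HH T n := by
  rcases Nat.eq_zero_or_pos n with rfl | hn
  · rw [mul_zero]
  have hn' : 0 < 2^k*n := by positivity
  by_cases hex : ∃ t, PP T n t
  · obtain ⟨t0, ht0⟩ := hex
    obtain ⟨t, ht, hmax⟩ := exists_last hn ht0
    have h1 : ∀ t', T (th n) t' → t < t' → AA t' n = od n := by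
      intro t' h' hlt
      by_contra hc
      exact absurd (hmax t' ⟨h', hc⟩) (by omega)
    rw [HH_some hn ht.1 ht.2 h1]
    rw [HH_some hn' (t := t) (by rw [th_pow_mul k hn]; exact ht.1)
      (by rw [AA_pow_mul, od_pow_mul k hn]; exact ht.2)
      (by
        intro t' h' hlt
        rw [th_pow_mul k hn] at h'
        rw [AA_pow_mul, od_pow_mul k hn]
        exact h1 t' h' hlt)]
    rw [AA_pow_mul, od_pow_mul k hn]
  · push Not at hex
    rw [HH_none hn (fun t ht => by by_contra hc; exact hex t ⟨ht, hc⟩)]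
    rw [HH_none hn' (fun t ht => by
      by_contra hc
      exact hex t ((PP_pow_mul k hn t).1 ⟨ht, hc⟩))]

theorem HH_od (T : ℕ → ℕ → Prop) {n : ℕ} (hn : 0 < n) : HH T (od n) = HH T n := by
  have h1 := (od_spec hn).1
  conv_rhs => rw [h1]
  rw [HH_pow_mul]

/-- the general evaluation at the last event of the whole event set -/
theorem HH_last {T : ℕ → ℕ → Prop} {n t : ℕ} (hn : 0 < n) (h : T (th n) t)
    (hmax : ∀ t', T (th n) t' → t' ≤ t) :
    HH T n = HH T (AA t n) +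
      (if od n = AA t n ∨ cpy (3*t+10) (AA t n) (od n) then 0 else 1) := by
  by_cases he : od n = AA t n
  · rw [if_pos (Or.inl he), add_zero, ← he, HH_od T hn]
  · rw [HH_some hn h (fun hc => he hc.symm) (fun t' h' hlt => absurd (hmax t' h') (by omega))]
    congr 1
    by_cases hcp : cpy (3*t+10) (AA t n) (od n)
    · rw [if_pos hcp, if_pos (Or.inr hcp)]
    · rw [if_neg hcp, if_neg (by tauto)]

end Pool.Agent.Helper7.HT2
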