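import Mathlib
import Pool.Agent.Helper7.HT2.Base

/-! Decoding. -/

namespace Pool.Agent.Helper7.HT2

open Pool.Agent.Helper81.HT

theorem od_le' {n : ℕ} (hn : 0 < n) : od n ≤ n := by
  have h := (od_spec hn).1
  have h2 : 1 ≤ 2^(vv n) := Nat.one_le_two_pow
  calc od n = 1 * od n := (one_mul _).symm
    _ ≤ 2^(vv n) * od n := Nat.mul_le_mul_right _ h2
    _ = n := h.symm

theorem th_od {n : ℕ} (hn : 0 < n) : th n = th (od n) := by
  have h := od_spec hn
  have h1 : 0 < od n := by omega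
  conv_lhs => rw [h.1]
  exact th_pow_mul _ h1

/-- an odd multiple decomposition is unique -/
theorem odd_unique {a b k l : ℕ} (ha : a % 2 = 1) (hb : b % 2 = 1)
    (h : 2^k * a = 2^l * b) : a = b := by
  have h1 := od_eq ha (rfl : 2^k * a = 2^k * a)
  have h2 := od_eq hb h
  omega

theorem not_two {w1 w2 u B : ℕ} (hw1 : 0 < w1) (hw2 : 0 < w2) (h1B : w1 ≤ B) (h2B : w2 ≤ B)
    (hlt : w1 < w2) (hu : B * B < u) (h1 : od (w1+u) = od w1) (h2 : od (w2+u) = od w2) :
    False := by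
  have s1 := (od_spec (show 0 < w1 + u by omega)).1
  have s2 := (od_spec (show 0 < w2 + u by omega)).1
  rw [h1] at s1
  rw [h2] at s2
  have o1 := od_le' hw1
  have o2 := od_le' hw2
  set k1 := vv (w1+u)
  set k2 := vv (w2+u)
  have key : ∀ k o : ℕ, o ≤ B → u ≤ 2^k * o → B < 2^k := by
    intro k o ho hk
    by_contra hc
    push Not at hc
    have : 2^k * o ≤ B * B := Nat.mul_le_mul hc ho
    omega
  have g1 : B < 2^k1 := key k1 (od w1) (by omega) (by omega)
  have g2 : B < 2^k2 := key k2 (od w2) (by omega) (by omega)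
  have d1 : 2^(min k1 k2) ∣ w1 + u := by
    rw [s1]; exact Dvd.dvd.mul_right (pow_dvd_pow 2 (min_le_left _ _)) _
  have d2 : 2^(min k1 k2) ∣ w2 + u := by
    rw [s2]; exact Dvd.dvd.mul_right (pow_dvd_pow 2 (min_le_right _ _)) _
  have d3 : 2^(min k1 k2) ∣ w2 - w1 := by
    have := Nat.dvd_sub d2 d1
    have e : w2 + u - (w1 + u) = w2 - w1 := by omega
    rwa [e] at this
  have d4 := Nat.le_of_dvd (by omega) d3
  have g3 : B < 2^(min k1 k2) := by
    rcases le_total k1 k2 with h | h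
    · rw [min_eq_left h]; exact g1
    · rw [min_eq_right h]; exact g2
  omega

theorem big_pow (B : ℕ) : 2*B + 2*B*B + 2*B < 2^(3*B+10) := by
  have h1 : B < 2^B := Nat.lt_two_pow_self
  have h2 : 2^(3*B+10) = 1024 * (2^B * 2^B * 2^B) := by
    rw [pow_add, show 3*B = B + B + B by ring, pow_add, pow_add]; norm_num; ring
  rw [h2]
  have h3 : B * B ≤ 2^B * 2^B := Nat.mul_le_mul h1.le h1.le
  have h4 : 1 ≤ 2^B := Nat.one_le_two_pow
  have h5 : 2^B * 2^B * 1 ≤ 2^B * 2^B * 2^B := Nat.mul_le_mul_left _ h4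
  have h6 : 2^B * 1 ≤ 2^B * 2^B := Nat.mul_le_mul_left _ h4
  nlinarith

/-- the arithmetic coreOne: an ordered version -/
theorem coreOne {w1 w2 u B k1 k2 L1 L2 b1 b2 c1 c2 : ℕ}
    (h1B : w1 ≤ B) (h2B : w2 ≤ B) (b1B : b1 ≤ B) (b2B : b2 ≤ B)
    (ho1 : b1 % 2 = 1) (ho2 : b2 % 2 = 1) (hc1 : c1 % 2 = 1) (hc2 : c2 % 2 = 1)
    (e1 : w1 + u = 2^k1 * (b1 + 2^L1 * c1)) (e2 : w2 + u = 2^k2 * (b2 + 2^L2 * c2))
    (hL1 : 3*B+10 ≤ L1) (hL2 : 3*B+10 ≤ L2)
    (m1 : c1 % 2^(3*B+10) = b1 % 2^(3*B+10)) (m2 : c2 % 2^(3*B+10) = b2 % 2^(3*B+10))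
    (hk : k1 ≤ k2) : b1 = b2 := by
  set m := 3*B+10 with hm
  have hbig := big_pow B
  rw [← hm] at hbig
  have hmod : ∀ c : ℕ, c % 2^m = b1 % 2^m → c % 2^m = b2 % 2^m → b1 = b2 := by
    intro c ha hb
    rw [Nat.mod_eq_of_lt (show b1 < 2^m by omega)] at ha
    rw [Nat.mod_eq_of_lt (show b2 < 2^m by omega)] at hb
    omega
  obtain ⟨d, rfl⟩ := Nat.exists_eq_add_of_le hk
  -- the integer D
  have hD : ((w2:ℤ) - w1) = 2^k1 * ((2^d * b2 + 2^(d+L2) * c2) - (b1 + 2^L1 * c1)) := by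
    have e1' : (w1:ℤ) + u = 2^k1 * (b1 + 2^L1 * c1) := by exact_mod_cast e1
    have e2' : (w2:ℤ) + u = 2^(k1+d) * (b2 + 2^L2 * c2) := by exact_mod_cast e2
    have : (w2:ℤ) - w1 = (w2 + u) - (w1 + u) := by ring
    rw [this, e1', e2', pow_add, pow_add]
    ring
  set D : ℤ := (2^d * b2 + 2^(d+L2) * c2) - (b1 + 2^L1 * c1) with hDdef
  have hDabs : |D| ≤ B := by
    have h1 : |((w2:ℤ) - w1)| ≤ B := by
      rw [abs_le]; constructor <;> omega
    rw [hD, abs_mul] at h1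
    have h2 : (1:ℤ) ≤ |(2:ℤ)^k1| := by
      rw [abs_of_pos (by positivity)]
      exact one_le_pow₀ (by norm_num)
    nlinarith [abs_nonneg D]
  have hDB := abs_le.1 hDabs
  have hDeq : D + b1 = 2^d * b2 + 2^(d+L2) * c2 - 2^L1 * c1 := by rw [hDdef]; ring
  have hbig' : (2*B + 2*B*B + 2*B : ℤ) < 2^m := by exact_mod_cast hbig
  rcases le_or_gt m d with hmd | hmd
  · have hdvd : (2:ℤ)^m ∣ D + b1 := by
      rw [hDeq]
      refine dvd_sub (dvd_add ?_ ?_) ?_
      · exact Dvd.dvd.mul_right (pow_dvd_pow 2 hmd) _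
      · exact Dvd.dvd.mul_right (pow_dvd_pow 2 (by omega)) _
      · exact Dvd.dvd.mul_right (pow_dvd_pow 2 (by omega)) _
    have h0 : D + b1 = 0 := by
      by_contra hne
      have := Int.le_of_dvd (abs_pos.2 hne) ((dvd_abs _ _).2 hdvd)
      have h2 : |D + b1| ≤ 2*B := by
        rw [abs_le]; constructor <;> nlinarith
      nlinarith
    rw [h0] at hDeq
    have h3 : (2:ℤ)^L1 * c1 = 2^d * (b2 + 2^L2 * c2) := by
      rw [pow_add] at hDeq; linarith
    have h4 : 2^L1 * c1 = 2^d * (b2 + 2^L2 * c2) := by exact_mod_cast h3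
    have h5 : (b2 + 2^L2 * c2) % 2 = 1 := by
      obtain ⟨L, hL⟩ := Nat.exists_eq_succ_of_ne_zero (show L2 ≠ 0 by omega)
      rw [hL, Nat.succ_eq_add_one, pow_succ]
      have : b2 + 2^L * 2 * c2 = b2 + 2 * (2^L * c2) := by ring
      rw [this]; omega
    have h6 := odd_unique hc1 h5 h4
    refine hmod c1 m1 ?_
    rw [h6]
    obtain ⟨r, hr⟩ := pow_dvd_pow 2 hL2
    rw [hr, mul_assoc, Nat.add_mul_mod_self_left]
  · have hddvd : (2:ℤ)^d ∣ D + b1 := by
      rw [hDeq]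
      refine dvd_sub (dvd_add ?_ ?_) ?_
      · exact Dvd.intro _ rfl
      · exact Dvd.dvd.mul_right (pow_dvd_pow 2 (by omega)) _
      · exact Dvd.dvd.mul_right (pow_dvd_pow 2 (by omega)) _
    have hne : D + b1 ≠ 0 := by
      intro h0
      rw [h0] at hDeq
      have h3 : (2:ℤ)^L1 * c1 = 2^d * (b2 + 2^L2 * c2) := by
        rw [pow_add] at hDeq; linarith
      have h4 : 2^L1 * c1 = 2^d * (b2 + 2^L2 * c2) := by exact_mod_cast h3
      have h5 : (b2 + 2^L2 * c2) % 2 = 1 := by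
        obtain ⟨L, hL⟩ := Nat.exists_eq_succ_of_ne_zero (show L2 ≠ 0 by omega)
        rw [hL, Nat.succ_eq_add_one, pow_succ]
        have : b2 + 2^L * 2 * c2 = b2 + 2 * (2^L * c2) := by ring
        rw [this]; omega
      have v1 := vv_eq hc1 (rfl : 2^L1 * c1 = 2^L1 * c1)
      have v2 := vv_eq h5 h4
      omega
    have h2d : (2:ℤ)^d ≤ 2*B := by
      have := Int.le_of_dvd (abs_pos.2 hne) ((dvd_abs _ _).2 hddvd)
      have h2 : |D + b1| ≤ 2*B := by
        rw [abs_le]; constructor <;> nlinarith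
      linarith
    have hdvd : (2:ℤ)^m ∣ D + b1 - 2^d * b2 := by
      have : D + b1 - 2^d * b2 = 2^(d+L2) * c2 - 2^L1 * c1 := by rw [hDeq]; ring
      rw [this]
      exact dvd_sub (Dvd.dvd.mul_right (pow_dvd_pow 2 (by omega)) _)
        (Dvd.dvd.mul_right (pow_dvd_pow 2 (by omega)) _)
    have h0 : D + b1 - 2^d * b2 = 0 := by
      by_contra hne'
      have h7 := Int.le_of_dvd (abs_pos.2 hne') ((dvd_abs _ _).2 hdvd)
      have h8 : (0:ℤ) ≤ 2^d * b2 := by positivity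
      have h9 : (2:ℤ)^d * b2 ≤ 2*B * B := by
        refine mul_le_mul h2d (by exact_mod_cast b2B) (by positivity) (by positivity)
      have h2 : |D + b1 - 2^d * b2| ≤ 2*B + 2*B*B := by
        rw [abs_le]; constructor <;> nlinarith
      have : (0:ℤ) ≤ B := by positivity
      nlinarith
    have h3 : (2:ℤ)^(d+L2) * c2 = 2^L1 * c1 := by
      rw [hDeq] at h0; linarith
    have h4 : 2^(d+L2) * c2 = 2^L1 * c1 := by exact_mod_cast h3
    have h6 := odd_unique hc2 hc1 h4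
    exact hmod c1 m1 (by rw [← h6]; exact m2)

theorem pair_eq {w1 w2 u m1 m2 B : ℕ} (hw1 : 0 < w1) (hw2 : 0 < w2)
    (h1B : w1 ≤ B) (h2B : w2 ≤ B) (hm1 : 3*B+10 ≤ m1) (hm2 : 3*B+10 ≤ m2)
    (hc1 : cpy m1 (od w1) (od (w1+u))) (hc2 : cpy m2 (od w2) (od (w2+u))) :
    od w1 = od w2 := by
  have dec : ∀ w m : ℕ, 0 < w → w ≤ B → 3*B+10 ≤ m → cpy m (od w) (od (w+u)) →
      ∃ k L c, 3*B+10 ≤ L ∧ c % 2 = 1 ∧ w + u = 2^k * (od w + 2^L * c) ∧
        c % 2^(3*B+10) = od w % 2^(3*B+10) := by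
    intro w m hw hwB hm hc
    obtain ⟨c1, c2, c3⟩ := hc
    have s1 := od_spec (show 0 < w + u by omega)
    have s2 := od_spec (show 0 < od (w+u) - od w by omega)
    refine ⟨vv (w+u), vv (od (w+u) - od w), od (od (w+u) - od w), by omega, s2.2, ?_, ?_⟩
    · rw [← s2.1]
      have : od w + (od (w+u) - od w) = od (w+u) := by omega
      rw [this]; exact s1.1
    · have hd : 2^(3*B+10) ∣ 2^m := pow_dvd_pow 2 hm
      have := congrArg (fun v => v % 2^(3*B+10)) c3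
      simpa [Nat.mod_mod_of_dvd _ hd] using this
  obtain ⟨k1, L1, c1, a1, a2, a3, a4⟩ := dec w1 m1 hw1 h1B hm1 hc1
  obtain ⟨k2, L2, c2, b1, b2, b3, b4⟩ := dec w2 m2 hw2 h2B hm2 hc2
  have o1 := (od_spec hw1).2
  have o2 := (od_spec hw2).2
  have l1 := od_le' hw1
  have l2 := od_le' hw2
  rcases le_total k1 k2 with h | h
  · exact coreOne h1B h2B (by omega) (by omega) o1 o2 a2 b2 a3 b3 a1 b1 a4 b4 h
  · exact (coreOne h2B h1B (by omega) (by omega) o2 o1 b2 a2 b3 a3 b1 a1 b4 a4 h).symm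

theorem F1 (f : ℕ → ℕ) (X : Set ℕ) (i : ℕ)
    (h1 : ∀ x ∈ X, 0 < x → cc (tt f) x = i)
    (h2 : ∀ x ∈ X, ∀ y ∈ X, 0 < x → 0 < y → x ≠ y → cc (tt f) (x + y) = i)
    (h3 : ∀ e, ∃ x ∈ X, 0 < x ∧ e < th x)
    {x y z e : ℕ} (hx : x ∈ X) (hy : y ∈ X) (hz : z ∈ X) (hx0 : 0 < x)
    (hxe : e < th x) (hxy : th x < th y) (hyz : th y < th z) (s : ℕ) (hs : f s = e) :
    ∃ s' ≤ x + y + z, f s' = e := by
  by_contra hcon
  push Not at hcon
  have th0 : th 0 = 0 := by
    have := Nat.findGreatest_le (P := fun j => 0 % MM j = 0) 0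
    unfold th
    omega
  have hy0 : 0 < y := by
    rcases Nat.eq_zero_or_pos y with h | h
    · rw [h, th0] at hxy; omega
    · exact h
  have hz0 : 0 < z := by
    rcases Nat.eq_zero_or_pos z with h | h
    · rw [h, th0] at hyz; omega
    · exact h
  obtain ⟨t, ht1, ht2⟩ := tt_find hs
  set B := x + y + z with hB
  have htB : B < t := by
    by_contra hc
    exact hcon t (by omega) ht1
  obtain ⟨S, hS⟩ := tt_bdd f (th z)
  -- the large element
  obtain ⟨u, hu, hu0, hut⟩ := h3 (S + th z + B * B + 1)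
  set J := S + th z + B * B + 1 with hJ
  have hJu : MM J ∣ u := (th_iff hu0).2 hut.le
  have huJ : B * B < u := by
    have a1 := Nat.le_of_dvd hu0 hJu
    have a2 := le_MM J
    omega
  have hmain : ∀ w ∈ X, 0 < w → w ≤ B → e < th w → th w ≤ th z →
      ∃ m, 3*B+10 ≤ m ∧ (od (w+u) = od w ∨ cpy m (od w) (od (w+u))) := by
    classical
    intro w hw hw0 hwB hew hwz
    have htt : tt f (th w) t := ⟨by omega, ht2⟩
    have hbd : ∀ τ, tt f (th w) τ → τ ≤ S := fun τ h => (hS τ (tt_mono hwz h)).le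
    set tw := Nat.findGreatest (fun τ => tt f (th w) τ) S with htw
    have htS := hbd t htt
    have q1 : tt f (th w) tw := Nat.findGreatest_spec (P := fun τ => tt f (th w) τ) htS htt
    have q2 : ∀ τ, tt f (th w) τ → τ ≤ tw := fun τ h => Nat.le_findGreatest (hbd τ h) h
    have q3 : t ≤ tw := q2 t htt
    have q4 : tw ≤ S := hbd tw q1
    have hmod : w % MM J = (w + u) % MM J := by
      obtain ⟨r, hr⟩ := hJu
      rw [hr, Nat.add_mul_mod_self_left]
    have hwu0 : 0 < w + u := by omega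
    have hthJ : th w < J := by omega
    have e1 : th (w+u) = th w := th_congr hw0 hwu0 hthJ hmod
    have e2 : cph (w+u) = cph w := cph_congr hw0 hwu0 hthJ hmod
    have e3 : AA tw (w+u) = od w := by
      rw [← AA_congr_le (show tw ≤ J by omega) hmod]
      exact AA_eq_od hw0 (by omega)
    have e4 : HH (tt f) (w+u) = HH (tt f) (AA tw (w+u)) +
      (if od (w+u) = AA tw (w+u) ∨ cpy (3*tw+10) (AA tw (w+u)) (od (w+u)) then 0 else 1) := by
      apply HH_last hwu0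
      · rw [e1]; exact q1
      · intro τ h
        rw [e1] at h
        exact q2 τ h
    rw [e3, HH_od _ hw0] at e4
    have c1 := h1 w hw hw0
    have hne : w ≠ u := by
      intro h
      rw [h] at hwz
      omega
    have c2 := h2 w hw u hu hw0 hu0 hne
    rw [← c1] at c2
    unfold cc at c2
    rw [e2, e4] at c2
    refine ⟨3*tw+10, by omega, ?_⟩
    by_contra hc
    rw [if_neg hc] at c2
    omega
  obtain ⟨m1, g1, o1⟩ := hmain x hx hx0 (by omega) hxe (by omega)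
  obtain ⟨m2, g2, o2⟩ := hmain y hy hy0 (by omega) (by omega) (by omega)
  obtain ⟨m3, g3, o3⟩ := hmain z hz hz0 (by omega) (by omega) le_rfl
  have nt : ∀ w1 w2 : ℕ, 0 < w1 → 0 < w2 → w1 ≤ B → w2 ≤ B → w1 ≠ w2 →
      od (w1+u) = od w1 → od (w2+u) = od w2 → False := by
    intro w1 w2 a b c d hne p q
    rcases lt_or_gt_of_ne hne with h | h
    · exact not_two a b c d h huJ p q
    · exact not_two b a d c h huJ q p
  have hxy' : x ≠ y := by rintro rfl; omega
  have hxz' : x ≠ z := by rintro rfl; omega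
  have hyz' : y ≠ z := by rintro rfl; omega
  have pe : ∀ w1 w2 m1 m2 : ℕ, 0 < w1 → 0 < w2 → w1 ≤ B → w2 ≤ B → 3*B+10 ≤ m1 →
      3*B+10 ≤ m2 → th w1 < th w2 → cpy m1 (od w1) (od (w1+u)) →
      cpy m2 (od w2) (od (w2+u)) → False := by
    intro w1 w2 n1 n2 a b c d p q hlt r r'
    have := pair_eq a b c d p q r r'
    have t1 := th_od a
    have t2 := th_od b
    rw [this] at t1
    omega
  rcases o1 with o1 | o1
  · rcases o2 with o2 | o2
    · exact nt x y hx0 hy0 (by omega) (by omega) hxy' o1 o2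
    · rcases o3 with o3 | o3
      · exact nt x z hx0 hz0 (by omega) (by omega) hxz' o1 o3
      · exact pe y z m2 m3 hy0 hz0 (by omega) (by omega) g2 g3 hyz o2 o3
  · rcases o2 with o2 | o2
    · rcases o3 with o3 | o3
      · exact nt y z hy0 hz0 (by omega) (by omega) hyz' o2 o3
      · exact pe x z m1 m3 hx0 hz0 (by omega) (by omega) g1 g3 (by omega) o1 o3
    · exact pe x y m1 m2 hx0 hy0 (by omega) (by omega) g1 g2 hxy o1 o2

end Pool.Agent.Helper7.HT2
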