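import Mathlib
import Pool.Agent.Helper7.HT2.Base

/-! `th` is unbounded on monochromatic sets. -/

namespace Pool.Agent.Helper7.HT2

open Pool.Agent.Helper81.HT

/-- infinite fibre -/
theorem inf_fiber {Y : Set ℕ} (hY : Y.Infinite) (g : ℕ → ℕ) (K : ℕ) (hg : ∀ y ∈ Y, g y < K) :
    ∃ k < K, {y ∈ Y | g y = k}.Infinite := by
  by_contra hcon
  push Not at hcon
  refine hY ?_
  have h1 : Y ⊆ ⋃ k ∈ Finset.range K, {y ∈ Y | g y = k} := by
    intro y hy
    simp only [Set.mem_iUnion, Finset.mem_range]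
    exact ⟨g y, hg y hy, hy, rfl⟩
  refine Set.Finite.subset ?_ h1
  refine Set.Finite.biUnion (Finset.finite_toSet _) ?_
  intro k hk
  exact hcon k (Finset.mem_range.mp hk)

/-- a function unbounded or constant on an infinite subset -/
theorem unb_or_fiber {Y : Set ℕ} (hY : Y.Infinite) (g : ℕ → ℕ) :
    (∀ K, ∃ y ∈ Y, K ≤ g y) ∨ ∃ k, {y ∈ Y | g y = k}.Infinite := by
  by_cases h : ∀ K, ∃ y ∈ Y, K ≤ g y
  · exact Or.inl h
  · right
    push Not at h
    obtain ⟨K, hK⟩ := h
    obtain ⟨k, _, hk⟩ := inf_fiber hY g K hK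
    exact ⟨k, hk⟩

/-- the flag of a sum -/
def Fl (m b N : ℕ) : Prop := N = b ∨ cpy m b N

theorem cpy_congr {m b N N' : ℕ} (h : b < N) (h' : b < N')
    (hmod : (2:ℤ)^(vv (N - b) + m + 1) ∣ (N' : ℤ) - N) : cpy m b N' ↔ cpy m b N := by
  obtain ⟨hw1, hw2⟩ := od_spec (n := N - b) (by omega)
  set v := vv (N - b) with hv
  set w := od (N - b) with hw
  obtain ⟨q, hq⟩ := hmod
  -- N' - b = 2^v * (w + 2^(m+1) q)
  have hz : ((N' - b : ℕ) : ℤ) = 2^v * (w + 2^(m+1) * q) := by
    have e1 : ((N' - b : ℕ) : ℤ) = (N' : ℤ) - b := by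
      rw [Nat.cast_sub h'.le]
    have e2 : ((N - b : ℕ) : ℤ) = (N : ℤ) - b := by
      rw [Nat.cast_sub h.le]
    have e3 : ((N - b : ℕ) : ℤ) = 2^v * w := by
      rw [hw1]; push_cast; rfl
    rw [e1, mul_add, ← e3, e2]
    have : (2:ℤ)^v * (2^(m+1) * q) = 2^(v+m+1) * q := by ring
    rw [this, ← hq]; ring
  have hpos : (0:ℤ) < w + 2^(m+1) * q := by
    have h0 : (0:ℤ) < ((N' - b : ℕ) : ℤ) := by
      have : 0 < N' - b := by omega
      exact_mod_cast this
    rw [hz] at h0
    exact (mul_pos_iff_of_pos_left (by positivity)).mp h0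
  obtain ⟨w', hw'⟩ := Int.eq_ofNat_of_zero_le hpos.le
  have hN' : N' - b = 2^v * w' := by
    have : ((N' - b : ℕ) : ℤ) = ((2^v * w' : ℕ) : ℤ) := by
      rw [hz, hw']; push_cast; rfl
    exact_mod_cast this
  have hw'odd : w' % 2 = 1 := by
    have e : (2:ℤ)^(m+1) * q = 2 * (2^m * q) := by ring
    have hw2' := hw'
    rw [e] at hw2'
    generalize (2:ℤ)^m * q = z at hw2'
    omega
  have hvv' : vv (N' - b) = v := vv_eq hw'odd hN'
  have hod' : od (N' - b) = w' := od_eq hw'odd hN'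
  have hmodw : w' % 2^m = w % 2^m := by
    have : w' ≡ w [MOD 2^m] := by
      rw [Nat.modEq_iff_dvd]
      refine ⟨-(2*q), ?_⟩
      rw [show (w' : ℤ) = w + 2^(m+1) * q from hw'.symm]
      push_cast
      ring
    exact this
  unfold cpy
  rw [hvv', hod', ← hv, ← hw, hmodw]
  tauto

theorem Fl_congr {m b N N' : ℕ} (h : b < N) (h' : b < N')
    (hmod : (2:ℤ)^(vv (N - b) + m + 1) ∣ (N' : ℤ) - N) : Fl m b N' ↔ Fl m b N := by
  unfold Fl
  rw [cpy_congr h h' hmod]
  have h1 : N ≠ b := by omega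
  have h2 : N' ≠ b := by omega
  tauto

theorem vv_lt {n : ℕ} (hn : 0 < n) : vv n < n := by
  have h1 := Nat.le_of_dvd hn (vv_spec n hn)
  have h2 : vv n < 2^(vv n) := Nat.lt_two_pow_self
  omega

/-- the case of an element with more factors two -/
theorem od_add_big {x y k : ℕ} (hx : 0 < x) (hy : 0 < y) (hk : 1 ≤ k)
    (h : vv y = vv x + k) : od (x + y) = od x + 2^k * od y := by
  obtain ⟨hx1, hx2⟩ := od_spec hx
  obtain ⟨hy1, hy2⟩ := od_spec hy
  refine od_eq (k := vv x) ?_ ?_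
  · obtain ⟨k', rfl⟩ : ∃ k', k = k' + 1 := ⟨k-1, by omega⟩
    have : 2^(k'+1) * od y = 2 * (2^k' * od y) := by ring
    omega
  · conv_lhs => rw [hx1, hy1]
    rw [h, pow_add]; ring

/-- the case of equal valuations -/
theorem od_add_eq {x y : ℕ} (hx : 0 < x) (hy : 0 < y)
    (h : vv y = vv x) (h4 : od y % 4 = od x % 4) : 2 * od (x + y) = od x + od y := by
  obtain ⟨hx1, hx2⟩ := od_spec hx
  obtain ⟨hy1, hy2⟩ := od_spec hy
  obtain ⟨c, hc⟩ : ∃ c, od x + od y = 2 * c := ⟨(od x + od y)/2, by omega⟩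
  have hod : od (x+y) = c := by
    refine od_eq (k := vv x + 1) (by omega) ?_
    conv_lhs => rw [hx1, hy1]
    rw [h, ← mul_add, hc]; ring
  rw [hod, hc]

/-- the arithmetical core -/
theorem core (m b : ℕ) {Y : Set ℕ} (hY : Y.Infinite) (hpos : ∀ y ∈ Y, 0 < y)
    (hb : ∀ y ∈ Y, b ≤ od y) :
    ∃ x ∈ Y, ∃ y ∈ Y, x ≠ y ∧ (Fl m b (od (x+y)) ↔ Fl m b (od x)) := by
  by_cases hZ1 : {y ∈ Y | od y = b}.Infinite
  · -- case (1)
    rcases unb_or_fiber hZ1 vv with hu | ⟨k, hk⟩
    · obtain ⟨x, hx, -⟩ := hu 0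
      obtain ⟨y, hy, hy'⟩ := hu (vv x + m + 1)
      have hx0 := hpos x hx.1
      have hy0 := hpos y hy.1
      have hne : x ≠ y := by rintro rfl; omega
      refine ⟨x, hx.1, y, hy.1, hne, ?_⟩
      obtain ⟨k, hk⟩ : ∃ k, vv y = vv x + k := ⟨vv y - vv x, by omega⟩
      have hod := od_add_big hx0 hy0 (k := k) (by omega) hk
      rw [hx.2, hy.2] at hod
      have hbodd : b % 2 = 1 := by rw [← hx.2]; exact (od_spec hx0).2
      have e1 : od (x+y) - b = 2^k * b := by omega
      have e2 : vv (od (x+y) - b) = k := vv_eq hbodd e1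
      have e3 : od (od (x+y) - b) = b := od_eq hbodd e1
      have e4 : Fl m b (od (x+y)) := by
        refine Or.inr ⟨?_, ?_, ?_⟩
        · rw [hod]
          have : 0 < 2^k * b := by
            have : 0 < b := by omega
            positivity
          omega
        · rw [e2]; omega
        · rw [e3]
      have e5 : Fl m b (od x) := Or.inl hx.2
      exact ⟨fun _ => e5, fun _ => e4⟩
    · exfalso
      refine hk ?_
      refine Set.Finite.subset (Set.finite_singleton (2^k * b)) ?_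
      rintro y ⟨⟨hy1, hy2⟩, hy3⟩
      rw [Set.mem_singleton_iff]
      have := (od_spec (hpos y hy1)).1
      rw [hy2, hy3] at this
      exact this
  · have hZ : {y ∈ Y | od y ≠ b}.Infinite := by
      intro hfin
      refine hY ?_
      refine Set.Finite.subset ((Set.not_infinite.mp hZ1).union hfin) ?_
      intro y hy
      by_cases h : od y = b
      · exact Or.inl ⟨hy, h⟩
      · exact Or.inr ⟨hy, h⟩
    rcases unb_or_fiber hZ vv with hu | ⟨k, hk⟩
    · -- case (2)
      obtain ⟨x, hx, -⟩ := hu 0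
      obtain ⟨y, hy, hy'⟩ := hu (vv x + (vv (od x - b) + m + 1))
      have hx0 := hpos x hx.1
      have hy0 := hpos y hy.1
      have hne : x ≠ y := by rintro rfl; omega
      refine ⟨x, hx.1, y, hy.1, hne, ?_⟩
      obtain ⟨k, hk⟩ : ∃ k, vv y = vv x + k := ⟨vv y - vv x, by omega⟩
      have hod := od_add_big hx0 hy0 (k := k) (by omega) hk
      have hbx : b < od x := lt_of_le_of_ne (hb x hx.1) (Ne.symm hx.2)
      refine Fl_congr hbx ?_ ?_
      · rw [hod]; exact lt_of_lt_of_le hbx (Nat.le_add_right _ _)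
      · rw [hod]
        push_cast
        rw [add_sub_cancel_left]
        exact Dvd.dvd.mul_right (pow_dvd_pow 2 (by omega)) _
    · -- case (3)
      obtain ⟨r, _, hr⟩ := inf_fiber hk (fun y => od y % 4) 4 (fun y _ => Nat.mod_lt _ (by norm_num))
      set Z := {y ∈ {y ∈ {y ∈ Y | od y ≠ b} | vv y = k} | od y % 4 = r} with hZdef
      have hZY : ∀ y ∈ Z, y ∈ Y := fun y hy => hy.1.1.1
      have hZb : ∀ y ∈ Z, b < od y := fun y hy =>
        lt_of_le_of_ne (hb y (hZY y hy)) (Ne.symm hy.1.1.2)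
      have hZadd : ∀ x ∈ Z, ∀ y ∈ Z, 2 * od (x + y) = od x + od y := by
        intro x hx y hy
        refine od_add_eq (hpos x (hZY x hx)) (hpos y (hZY y hy)) ?_ ?_
        · rw [hx.1.2, hy.1.2]
        · rw [hx.2, hy.2]
      rcases unb_or_fiber hr (fun y => vv (od y - b)) with hu | ⟨R, hR⟩
      · -- case (3b)
        obtain ⟨x, hx, hx'⟩ := hu (m+1)
        obtain ⟨y, hy, hy'⟩ := hu (vv (od x - b) + m + 1)
        have hne : x ≠ y := by rintro rfl; omega
        refine ⟨x, hZY x hx, y, hZY y hy, hne, ?_⟩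
        have hadd := hZadd x hx y hy
        have hbx := hZb x hx
        have hby := hZb y hy
        obtain ⟨hx1, hx2⟩ := od_spec (n := od x - b) (by omega)
        obtain ⟨hy1, hy2⟩ := od_spec (n := od y - b) (by omega)
        set L := vv (od x - b) with hL
        set w := od (od x - b) with hw
        obtain ⟨L', hL'⟩ : ∃ L', L = L' + 1 := ⟨L - 1, by omega⟩
        obtain ⟨d, hd⟩ : ∃ d, vv (od y - b) = L + (m + 1) + d := ⟨vv (od y - b) - (L + (m+1)), by omega⟩
        set u := od (od y - b) with hu'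
        have e1 : od (x+y) - b = 2^L' * (w + 2^(m+1+d) * u) := by
          have e2 : 2 * (od (x+y) - b) = (od x - b) + (od y - b) := by omega
          have e3 : 2 * (od (x+y) - b) = 2 * (2^L' * (w + 2^(m+1+d) * u)) := by
            rw [e2, hx1, hy1, hd, hL']; ring
          omega
        have hodd : (w + 2^(m+1+d) * u) % 2 = 1 := by
          have : 2^(m+1+d) * u = 2 * (2^(m+d) * u) := by ring
          omega
        have e4 : vv (od (x+y) - b) = L' := vv_eq hodd e1
        have e5 : od (od (x+y) - b) = w + 2^(m+1+d) * u := od_eq hodd e1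
        have e6 : (w + 2^(m+1+d) * u) % 2^m = w % 2^m := by
          have : 2^(m+1+d) * u = 2^m * (2^(1+d) * u) := by ring
          rw [this, Nat.add_mul_mod_self_left]
        unfold Fl cpy
        rw [e4, e5, e6, ← hL, ← hw]
        have h1 : od x ≠ b := by omega
        have h2 : od (x+y) ≠ b := by omega
        have h3 : b < od (x+y) := by omega
        have h4 : m ≤ L := by omega
        have h5 : m ≤ L' := by omega
        tauto
      · -- case (3a)
        obtain ⟨c, _, hc⟩ := inf_fiber hR (fun y => od y % 2^(R+m+2)) (2^(R+m+2))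
          (fun y _ => Nat.mod_lt _ (by positivity))
        obtain ⟨x, hx⟩ := hc.nonempty
        obtain ⟨y, hy, hyx⟩ := hc.exists_gt x
        have hxZ := hx.1.1
        have hyZ := hy.1.1
        refine ⟨x, hZY x hxZ, y, hZY y hyZ, by omega, ?_⟩
        have hadd := hZadd x hxZ y hyZ
        have hbx := hZb x hxZ
        have hby := hZb y hyZ
        refine Fl_congr hbx (by omega) ?_
        have hvR : vv (od x - b) = R := hx.1.2
        rw [hvR]
        have hm : od x ≡ od y [MOD 2^(R+m+2)] := by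
          have h1 := hx.2
          have h2 := hy.2
          exact h1.trans h2.symm
        rw [Nat.modEq_iff_dvd] at hm
        obtain ⟨q, hq⟩ := hm
        refine ⟨q, ?_⟩
        have e1 : (2:ℤ) * (od (x+y) : ℤ) = od x + od y := by exact_mod_cast hadd
        have e2 : (2:ℤ) * ((od (x+y) : ℤ) - od x) = 2 * (2^(R+m+1) * q) := by
          push_cast at hq
          rw [mul_sub, e1]
          have : (2:ℤ) * (2^(R+m+1) * q) = 2^(R+m+2) * q := by ring
          rw [this, ← hq]; ring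
        exact mul_left_cancel₀ (by norm_num) e2

theorem F0 (f : ℕ → ℕ) (X : Set ℕ) (hX : X.Infinite) (i : ℕ)
    (h1 : ∀ x ∈ X, 0 < x → cc (tt f) x = i)
    (h2 : ∀ x ∈ X, ∀ y ∈ X, 0 < x → 0 < y → x ≠ y → cc (tt f) (x + y) = i) (e : ℕ) :
    ∃ x ∈ X, 0 < x ∧ e < th x := by
  by_contra hcon
  push Not at hcon
  obtain ⟨S, hS⟩ := tt_bdd f e
  set J := e + 1 + S with hJ
  have hX0 : {x ∈ X | 0 < x}.Infinite := by
    intro hfin
    refine hX (Set.Finite.subset (hfin.union (Set.finite_singleton 0)) ?_)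
    intro x hx
    rcases Nat.eq_zero_or_pos x with h | h
    · exact Or.inr h
    · exact Or.inl ⟨hx, h⟩
  obtain ⟨r, _, hr⟩ := inf_fiber hX0 (fun x => x % MM J) (MM J)
    (fun x _ => Nat.mod_lt _ (MM_pos J))
  set Y := {y ∈ {x ∈ X | 0 < x} | y % MM J = r} with hYdef
  have hYX : ∀ y ∈ Y, y ∈ X := fun y hy => hy.1.1
  have hY0 : ∀ y ∈ Y, 0 < y := fun y hy => hy.1.2
  have hYr : ∀ y ∈ Y, y % MM J = r := fun y hy => hy.2
  obtain ⟨x0, hx0⟩ := hr.nonempty
  have hth0 : th x0 ≤ e := hcon x0 (hYX x0 hx0) (hY0 x0 hx0)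
  have hth : ∀ y ∈ Y, th y = th x0 := by
    intro y hy
    exact th_congr (J := J) (hY0 x0 hx0) (hY0 y hy) (by omega) (by rw [hYr x0 hx0, hYr y hy])
  have hsum : ∀ x ∈ Y, ∀ y ∈ Y, (2*x) % MM J = (x + y) % MM J := by
    intro x hx y hy
    rw [two_mul, Nat.add_mod x x, Nat.add_mod x y, hYr x hx, hYr y hy]
  have hth2x : ∀ x ∈ Y, th (2*x) = th x0 := by
    intro x hx
    have := th_pow_mul 1 (hY0 x hx)
    rw [pow_one] at this
    rw [this, hth x hx]
  have hthadd : ∀ x ∈ Y, ∀ y ∈ Y, th (x+y) = th x0 := by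
    intro x hx y hy
    have h0 := hY0 x hx
    rw [← hth2x x hx]
    exact th_congr (J := J) (by omega) (by omega) (by rw [hth2x x hx]; omega) (hsum x hx y hy)
  have hcphadd : ∀ x ∈ Y, ∀ y ∈ Y, (cph (x+y) + cph x) % 2 = 1 := by
    intro x hx y hy
    have h0 := hY0 x hx
    rw [cph_congr (J := J) (n := 2*x) (n' := x+y) (by omega) (by omega)
      (by rw [hth2x x hx]; omega) (hsum x hx y hy)]
    exact cph_two_mul h0
  have hAAadd : ∀ x ∈ Y, ∀ y ∈ Y, ∀ j ≤ J, AA j (x+y) = AA j x := by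
    intro x hx y hy j hj
    rw [← AA_congr_le hj (hsum x hx y hy)]
    have := AA_pow_mul j 1 x
    rw [pow_one] at this
    exact this
  -- it suffices to find a pair with equal corrections
  suffices hsuff : ∃ x ∈ Y, ∃ y ∈ Y, x ≠ y ∧ HH (tt f) (x+y) = HH (tt f) x by
    obtain ⟨x, hx, y, hy, hne, hHH⟩ := hsuff
    have c1 := h1 x (hYX x hx) (hY0 x hx)
    have c2 := h2 x (hYX x hx) y (hYX y hy) (hY0 x hx) (hY0 y hy) hne
    have c3 := hcphadd x hx y hy
    unfold cc at c1 c2
    rw [hHH] at c2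
    omega
  by_cases hev : ∃ t, tt f (th x0) t
  · -- the last event
    obtain ⟨t, ht, htmax⟩ : ∃ t, tt f (th x0) t ∧ ∀ t', tt f (th x0) t' → t' ≤ t := by
      classical
      obtain ⟨t1, ht1⟩ := hev
      have hle : ∀ t', tt f (th x0) t' → t' ≤ S := fun t' h =>
        (hS t' (tt_mono hth0 h)).le
      refine ⟨Nat.findGreatest (fun t => tt f (th x0) t) S, ?_, ?_⟩
      · exact Nat.findGreatest_spec (P := fun t => tt f (th x0) t) (hle t1 ht1) ht1
      · intro t' ht'
        exact Nat.le_findGreatest (hle t' ht') ht'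
    have htJ : t ≤ J := by
      have := hS t (tt_mono hth0 ht)
      omega
    have hAA : ∀ y ∈ Y, AA t y = AA t x0 := by
      intro y hy
      exact AA_congr_le htJ (by rw [hYr x0 hx0, hYr y hy])
    obtain ⟨x, hx, y, hy, hne, hfl⟩ := core (3*t+10) (AA t x0) hr hY0
      (fun y hy => by rw [← hAA y hy]; exact AA_le_od t (hY0 y hy))
    refine ⟨x, hx, y, hy, hne, ?_⟩
    have h0 := hY0 x hx
    have hAn : AA t (x+y) = AA t x0 := by rw [hAAadd x hx y hy t htJ, hAA x hx]
    rw [HH_last (n := x+y) (t := t) (by omega) (by rw [hthadd x hx y hy]; exact ht)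
        (by rw [hthadd x hx y hy]; exact htmax),
      HH_last (n := x) (t := t) h0 (by rw [hth x hx]; exact ht)
        (by rw [hth x hx]; exact htmax), hAn, hAA x hx]
    unfold Fl at hfl
    simp only [hfl]
  · obtain ⟨x, hx⟩ := hr.nonempty
    obtain ⟨y, hy, hyx⟩ := hr.exists_gt x
    have h0 := hY0 x hx
    refine ⟨x, hx, y, hy, by omega, ?_⟩
    rw [HH_none (by omega) (fun t ht => absurd ⟨t, by rwa [hthadd x hx y hy] at ht⟩ hev),
      HH_none h0 (fun t ht => absurd ⟨t, by rwa [hth x hx] at ht⟩ hev)]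

end Pool.Agent.Helper7.HT2
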