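import Mathlib
import Pool.Agent.Helper7.HT2.FZero
import Pool.Agent.Helper7.HT2.FOne

namespace Pool.Agent.Helper7.HT2

open Pool.Agent.Helper81.HT

/-- the colour, as a function of the list of the first values of `f` -/
noncomputable def ccL (L : List ℕ) (n : ℕ) : Fin 2 := ⟨cc (ttL L) n, by unfold cc; omega⟩

section primrec

variable {α : Type*} [Primcodable α]

theorem pr_MM : Primrec MM := by
  unfold MM
  exact Primrec.nat_sub.comp (pr_pow (Primrec.const 2) (pr_pow (Primrec.const 2) Primrec.id))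
    (Primrec.const 1)

theorem pr_AA : Primrec₂ AA := by
  unfold AA
  refine Primrec.nat_findGreatest (f := fun p : ℕ × ℕ => p.2)
    (p := fun p r => ∀ s < 2^p.1, r ≤ 2^s*p.2 % MM p.1) Primrec.snd ?_
  refine pr_forall (α := (ℕ × ℕ) × ℕ) (f := fun q => 2^q.1.1)
    (p := fun q s => q.2 ≤ 2^s*q.1.2 % MM q.1.1)
    (pr_pow (Primrec.const 2) (Primrec.fst.comp Primrec.fst)) ?_
  refine Primrec.nat_le.comp (Primrec.snd.comp Primrec.fst) ?_
  refine Primrec.nat_mod.comp (Primrec.nat_mul.comp (pr_pow (Primrec.const 2) Primrec.snd) ?_) ?_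
  · exact Primrec.snd.comp (Primrec.fst.comp Primrec.fst)
  · exact pr_MM.comp (Primrec.fst.comp (Primrec.fst.comp Primrec.fst))

theorem pr_th : Primrec th := by
  unfold th
  refine Primrec.nat_findGreatest (f := fun n => n) (p := fun n j => n % MM j = 0) Primrec.id ?_
  exact Primrec.eq.comp (Primrec.nat_mod.comp Primrec.fst (pr_MM.comp Primrec.snd))
    (Primrec.const 0)

theorem pr_cph : Primrec cph := by
  unfold cph
  refine Primrec.ite ?_ (Primrec.const 1) (Primrec.const 0)
  refine (pr_exists (f := fun n => 2^(th n + 1))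
    (p := fun n s => s % 2 = 1 ∧ 2^s*n % MM (th n + 1) = AA (th n + 1) n)
    (pr_pow (Primrec.const 2) (Primrec.succ.comp pr_th)) ?_)
  have h1 : Primrec (fun p : ℕ × ℕ => th p.1 + 1) := Primrec.succ.comp (pr_th.comp Primrec.fst)
  refine PrimrecPred.and ?_ ?_
  · exact Primrec.eq.comp (Primrec.nat_mod.comp Primrec.snd (Primrec.const 2)) (Primrec.const 1)
  · refine Primrec.eq.comp (Primrec.nat_mod.comp (Primrec.nat_mul.comp
      (pr_pow (Primrec.const 2) Primrec.snd) Primrec.fst) (pr_MM.comp h1)) ?_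
    exact pr_AA.comp h1 Primrec.fst

theorem pr_cpy {m b N : α → ℕ} (hm : Primrec m) (hb : Primrec b) (hN : Primrec N) :
    PrimrecPred (fun a => cpy (m a) (b a) (N a)) := by
  unfold cpy
  have hd : Primrec (fun a => N a - b a) := Primrec.nat_sub.comp hN hb
  refine PrimrecPred.and (Primrec.nat_lt.comp hb hN) ?_
  refine PrimrecPred.and (Primrec.nat_le.comp hm (pr_vv.comp hd)) ?_
  exact Primrec.eq.comp (Primrec.nat_mod.comp (pr_od.comp hd) (pr_pow (Primrec.const 2) hm))
    (Primrec.nat_mod.comp hb (pr_pow (Primrec.const 2) hm))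

theorem pr_PP : PrimrecRel (fun (p : List ℕ × ℕ) (t : ℕ) => PP (ttL p.1) p.2 t) := by
  unfold PP
  refine PrimrecPred.and ?_ ?_
  · exact pr_ttL (Primrec.fst.comp Primrec.fst) (pr_th.comp (Primrec.snd.comp Primrec.fst))
      Primrec.snd
  · refine PrimrecPred.not ?_
    exact Primrec.eq.comp (pr_AA.comp Primrec.snd (Primrec.snd.comp Primrec.fst))
      (pr_od.comp (Primrec.snd.comp Primrec.fst))

theorem pr_lst : Primrec (fun p : List ℕ × ℕ => lst (ttL p.1) p.2) := by
  classical
  unfold lst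
  have := Primrec.nat_findGreatest (f := fun p : List ℕ × ℕ => p.2)
    (p := fun p t => PP (ttL p.1) p.2 t) Primrec.snd pr_PP
  refine this.of_eq ?_
  intro p
  congr!

open Classical in
/-- the step function of the course-of-values recursion -/
noncomputable def stp (L : List ℕ) (l : List ℕ) (n : ℕ) : ℕ :=
  if PP (ttL L) n (lst (ttL L) n) ∧ AA (lst (ttL L) n) n < n then
    l.getD (AA (lst (ttL L) n) n) 0 +
      (if cpy (3 * lst (ttL L) n + 10) (AA (lst (ttL L) n) n) (od n) then 0 else 1)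
  else 0

theorem pr_stp : Primrec (fun p : (List ℕ × List ℕ) × ℕ => stp p.1.1 p.1.2 p.2) := by
  classical
  unfold stp
  have hlen : Primrec (fun p : (List ℕ × List ℕ) × ℕ => p.2) := Primrec.snd
  have hpair : Primrec (fun p : (List ℕ × List ℕ) × ℕ => (p.1.1, p.2)) :=
    Primrec.pair (Primrec.fst.comp Primrec.fst) hlen
  have hlst : Primrec (fun p : (List ℕ × List ℕ) × ℕ => lst (ttL p.1.1) p.2) :=
    pr_lst.comp hpair
  have hAA : Primrec (fun p : (List ℕ × List ℕ) × ℕ => AA (lst (ttL p.1.1) p.2) p.2) :=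
    pr_AA.comp hlst hlen
  have h1 : PrimrecPred (fun p : (List ℕ × List ℕ) × ℕ =>
      PP (ttL p.1.1) p.2 (lst (ttL p.1.1) p.2) ∧ AA (lst (ttL p.1.1) p.2) p.2 < p.2) := by
    refine PrimrecPred.and ?_ ?_
    · exact pr_PP.comp hpair hlst
    · exact Primrec.nat_lt.comp hAA hlen
  have h2 : Primrec (fun p : (List ℕ × List ℕ) × ℕ =>
      p.1.2.getD (AA (lst (ttL p.1.1) p.2) p.2) 0 +
      (if cpy (3 * lst (ttL p.1.1) p.2 + 10) (AA (lst (ttL p.1.1) p.2) p.2) (od p.2) then 0 else 1)) := by
    refine Primrec.nat_add.comp ?_ ?_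
    · exact (Primrec.list_getD 0).comp (Primrec.snd.comp Primrec.fst) hAA
    · refine Primrec.ite ?_ (Primrec.const 0) (Primrec.const 1)
      refine pr_cpy ?_ hAA (pr_od.comp hlen)
      exact Primrec.nat_add.comp (Primrec.nat_mul.comp (Primrec.const 3) hlst) (Primrec.const 10)
  refine (Primrec.ite h1 h2 (Primrec.const 0)).of_eq ?_
  intro p
  congr!

theorem pr_HH : Primrec₂ (fun (L : List ℕ) (n : ℕ) => HH (ttL L) n) := by
  have hg : Primrec₂ (fun (L l : List ℕ) => some (stp L l l.length)) := by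
    have h1 : Primrec (fun p : List ℕ × List ℕ => ((p, p.2.length) : (List ℕ × List ℕ) × ℕ)) :=
      Primrec.pair Primrec.id (Primrec.list_length.comp Primrec.snd)
    exact Primrec.option_some.comp (pr_stp.comp h1)
  refine Primrec.nat_strong_rec (fun (L : List ℕ) (n : ℕ) => HH (ttL L) n) hg ?_
  intro L n
  simp only [Option.some.injEq, List.length_map, List.length_range]
  rw [HH]
  unfold stp
  by_cases h : PP (ttL L) n (lst (ttL L) n) ∧ AA (lst (ttL L) n) n < n
  · rw [if_pos h, dif_pos h]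
    congr 1
    rw [List.getD_eq_getElem?_getD, List.getElem?_map, List.getElem?_range h.2]
    rfl
  · rw [if_neg h, dif_neg h]

theorem primrec_ccL : Primrec₂ ccL := by
  have h : Primrec (fun p : List ℕ × ℕ => cc (ttL p.1) p.2) := by
    unfold cc
    exact Primrec.nat_mod.comp (Primrec.nat_add.comp (pr_cph.comp Primrec.snd) pr_HH)
      (Primrec.const 2)
  have h2 := (Primrec.fin_val_iff (n := 2) (f := fun p : List ℕ × ℕ => ccL p.1 p.2)).1 h
  exact h2

end primrec

theorem fg_congr {P Q : ℕ → Prop} [DecidablePred P] [DecidablePred Q] {n : ℕ}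
    (h : ∀ t ≤ n, P t ↔ Q t) : Nat.findGreatest P n = Nat.findGreatest Q n := by
  induction n with
  | zero => simp
  | succ n ih =>
    rw [Nat.findGreatest_succ, Nat.findGreatest_succ, ih (fun t ht => h t (by omega))]
    by_cases hP : P (n+1)
    · rw [if_pos hP, if_pos ((h _ le_rfl).1 hP)]
    · rw [if_neg hP, if_neg (fun hQ => hP ((h _ le_rfl).2 hQ))]

theorem lst_congr {T T' : ℕ → ℕ → Prop} {n : ℕ} (h : ∀ i, ∀ t ≤ n, T i t ↔ T' i t) :
    lst T n = lst T' n := by
  classical
  unfold lst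
  refine fg_congr fun t ht => ?_
  unfold PP
  rw [h _ t ht]

theorem lst_le (T : ℕ → ℕ → Prop) (n : ℕ) : lst T n ≤ n := by
  classical
  unfold lst
  exact Nat.findGreatest_le n

open Classical in
theorem HH_unfold (T : ℕ → ℕ → Prop) (n : ℕ) : HH T n =
    if _h : PP T n (lst T n) ∧ AA (lst T n) n < n then
      HH T (AA (lst T n) n) + (if cpy (3 * lst T n + 10) (AA (lst T n) n) (od n) then 0 else 1)
    else 0 := by
  rw [HH]

theorem HH_congr {T T' : ℕ → ℕ → Prop} {m : ℕ} (h : ∀ i, ∀ t ≤ m, T i t ↔ T' i t) :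
    ∀ n ≤ m, HH T n = HH T' n := by
  intro n
  induction n using Nat.strong_induction_on with
  | _ n ih =>
    intro hn
    have hl : lst T n = lst T' n := lst_congr fun i t ht => h i t (ht.trans hn)
    rw [HH_unfold T n, HH_unfold T' n, hl]
    have hP : PP T n (lst T' n) ↔ PP T' n (lst T' n) := by
      unfold PP
      rw [h _ _ ((lst_le T' n).trans hn)]
    by_cases hc : PP T' n (lst T' n) ∧ AA (lst T' n) n < n
    · rw [dif_pos hc, dif_pos ⟨hP.2 hc.1, hc.2⟩, ih _ hc.2 (hc.2.le.trans hn)]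
    · rw [dif_neg hc, dif_neg (fun h' => hc ⟨hP.1 h'.1, h'.2⟩)]

theorem ccL_eq (f : ℕ → ℕ) (n : ℕ) :
    (ccL ((List.range (n+1)).map f) n : ℕ) = cc (tt f) n := by
  show cc (ttL ((List.range (n+1)).map f)) n = cc (tt f) n
  unfold cc
  rw [HH_congr (T := ttL ((List.range (n+1)).map f)) (T' := tt f) (m := n)
    (fun i t ht => ttL_iff ht) n le_rfl]

theorem main (A : Set ℕ) :
    ∃ c : ℕ → Fin 2, ComputableIn {chi A} c ∧
      ∀ X : Set ℕ, X.Infinite → Mono c (FSle 2 X) →
        ∀ g : ℕ →. ℕ, RecursiveIn {chi A} g →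
          RecursiveIn {chi A, chi X} (chi {n | (g n).Dom}) := by
  classical
  let C : ℕ → Fin 2 := fun m => ccL ((List.range (m+1)).map (fA A)) m
  have hCv : ∀ m, (C m : ℕ) = cc (tt (fA A)) m := fun m => ccL_eq (fA A) m
  refine ⟨C, ?_, ?_⟩
  · have hf : ComputableIn {chi A} (fA A) := cin_fA A (Set.mem_singleton _)
    have h1 := cin_comp_nat (cin_list hf) (cin_of_comp (O := {chi A}) Computable.succ)
    have h2 := cin_pair h1 (cin_of_comp (O := {chi A}) Computable.id)
    have h3 := cin_comp (G := fun p : List ℕ × ℕ => ccL p.1 p.2) primrec_ccL.to_comp h2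
    exact h3
  · intro X hX hmono g hg
    rw [RecursiveIn.iff_nat] at hg
    obtain ⟨e, he⟩ := fA_univ hg
    set O : Set (ℕ →. ℕ) := {chi A, chi X} with hO
    have hAO : chi A ∈ O := by simp [hO]
    have hXO : chi X ∈ O := by simp [hO]
    -- the colour
    obtain ⟨x0, hx0⟩ := hX.nonempty
    have hx0F : x0 ∈ FSle 2 X := ⟨{x0}, by simpa using hx0, by simp, by simp, by simp⟩
    have hc1 : ∀ x ∈ X, 0 < x → cc (tt (fA A)) x = (C x0 : ℕ) := by
      intro x hx _
      have hxF : x ∈ FSle 2 X := ⟨{x}, by simpa using hx, by simp, by simp, by simp⟩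
      rw [← hCv, hmono x hxF x0 hx0F]
    have hc2 : ∀ x ∈ X, ∀ y ∈ X, 0 < x → 0 < y → x ≠ y →
        cc (tt (fA A)) (x + y) = (C x0 : ℕ) := by
      intro x hx y hy _ _ hxy
      have hxF : x + y ∈ FSle 2 X := by
        refine ⟨{x, y}, ?_, ?_, ?_, ?_⟩
        · intro z hz
          simp only [Finset.coe_insert, Finset.coe_singleton, Set.mem_insert_iff,
            Set.mem_singleton_iff] at hz
          rcases hz with rfl | rfl
          · exact hx
          · exact hy
        · rw [Finset.card_pair hxy]; norm_num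
        · rw [Finset.card_pair hxy]
        · rw [Finset.sum_pair hxy]
      rw [← hCv, hmono (x + y) hxF x0 hx0F]
    have hF0 := F0 (fA A) X hX _ hc1 hc2
    -- search for a triple
    let Q : ℕ → ℕ → Prop := fun a w => (w.unpair.1 ∈ X ∧ w.unpair.2.unpair.1 ∈ X ∧
      w.unpair.2.unpair.2 ∈ X) ∧ (0 < w.unpair.1 ∧ a < th w.unpair.1 ∧
        th w.unpair.1 < th w.unpair.2.unpair.1 ∧
        th w.unpair.2.unpair.1 < th w.unpair.2.unpair.2)
    have hex : ∀ a, ∃ w, Q a w := by
      intro a
      obtain ⟨x, hx, h0, h1⟩ := hF0 a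
      obtain ⟨y, hy, _, h2⟩ := hF0 (th x)
      obtain ⟨z, hz, _, h3⟩ := hF0 (th y)
      refine ⟨Nat.pair x (Nat.pair y z), ?_⟩
      simp only [Q, Nat.unpair_pair]
      exact ⟨⟨hx, hy, hz⟩, h0, h1, h2, h3⟩
    have hP : ComputableIn O (fun v : ℕ => if Q v.unpair.1 v.unpair.2 then 0 else 1) := by
      have hchi := cin_chi X hXO
      have g1 : Primrec (fun v : ℕ => v.unpair.2.unpair.1) :=
        Primrec.fst.comp (Primrec.unpair.comp (Primrec.snd.comp Primrec.unpair))
      have g2 : Primrec (fun v : ℕ => v.unpair.2.unpair.2.unpair.1) :=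
        Primrec.fst.comp (Primrec.unpair.comp (Primrec.snd.comp (Primrec.unpair.comp
          (Primrec.snd.comp Primrec.unpair))))
      have g3 : Primrec (fun v : ℕ => v.unpair.2.unpair.2.unpair.2) :=
        Primrec.snd.comp (Primrec.unpair.comp (Primrec.snd.comp (Primrec.unpair.comp
          (Primrec.snd.comp Primrec.unpair))))
      have g0 : Primrec (fun v : ℕ => v.unpair.1) := Primrec.fst.comp Primrec.unpair
      have h1 : ComputableIn O (fun v : ℕ => (v, if v.unpair.2.unpair.1 ∈ X then 1 else 0)) :=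
        cin_pair (cin_of_comp (O := O) Computable.id)
          (cin_comp_nat hchi (cin_of_comp g1.to_comp))
      have h2 : ComputableIn O (fun v : ℕ =>
          if v.unpair.2.unpair.2.unpair.1 ∈ X then 1 else 0) :=
        cin_comp_nat hchi (cin_of_comp g2.to_comp)
      have h3 : ComputableIn O (fun v : ℕ =>
          if v.unpair.2.unpair.2.unpair.2 ∈ X then 1 else 0) :=
        cin_comp_nat hchi (cin_of_comp g3.to_comp)
      have h4 := cin_pair h1 (cin_pair h2 h3)
      have h5 : Primrec (fun p : (ℕ × ℕ) × (ℕ × ℕ) =>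
          if ((p.1.2 = 1 ∧ p.2.1 = 1 ∧ p.2.2 = 1) ∧ (0 < p.1.1.unpair.2.unpair.1 ∧
            p.1.1.unpair.1 < th p.1.1.unpair.2.unpair.1 ∧
            th p.1.1.unpair.2.unpair.1 < th p.1.1.unpair.2.unpair.2.unpair.1 ∧
            th p.1.1.unpair.2.unpair.2.unpair.1 < th p.1.1.unpair.2.unpair.2.unpair.2))
          then 0 else 1) := by
        have k : Primrec (fun p : (ℕ × ℕ) × (ℕ × ℕ) => p.1.1) :=
          Primrec.fst.comp Primrec.fst
        refine Primrec.ite ?_ (Primrec.const 0) (Primrec.const 1)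
        refine PrimrecPred.and ?_ ?_
        · refine PrimrecPred.and (Primrec.eq.comp (Primrec.snd.comp Primrec.fst)
            (Primrec.const 1)) ?_
          exact PrimrecPred.and (Primrec.eq.comp (Primrec.fst.comp Primrec.snd)
            (Primrec.const 1)) (Primrec.eq.comp (Primrec.snd.comp Primrec.snd)
            (Primrec.const 1))
        · refine PrimrecPred.and (Primrec.nat_lt.comp (Primrec.const 0) (g1.comp k)) ?_
          refine PrimrecPred.and (Primrec.nat_lt.comp (g0.comp k) (pr_th.comp (g1.comp k))) ?_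
          exact PrimrecPred.and
            (Primrec.nat_lt.comp (pr_th.comp (g1.comp k)) (pr_th.comp (g2.comp k)))
            (Primrec.nat_lt.comp (pr_th.comp (g2.comp k)) (pr_th.comp (g3.comp k)))
      have h6 := cin_comp h5.to_comp h4
      have h7 : (fun v : ℕ => if Q v.unpair.1 v.unpair.2 then 0 else 1) = fun v : ℕ =>
          (fun p : (ℕ × ℕ) × (ℕ × ℕ) =>
          if ((p.1.2 = 1 ∧ p.2.1 = 1 ∧ p.2.2 = 1) ∧ (0 < p.1.1.unpair.2.unpair.1 ∧
            p.1.1.unpair.1 < th p.1.1.unpair.2.unpair.1 ∧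
            th p.1.1.unpair.2.unpair.1 < th p.1.1.unpair.2.unpair.2.unpair.1 ∧
            th p.1.1.unpair.2.unpair.2.unpair.1 < th p.1.1.unpair.2.unpair.2.unpair.2))
          then 0 else 1) ((v, if v.unpair.2.unpair.1 ∈ X then 1 else 0),
            (if v.unpair.2.unpair.2.unpair.1 ∈ X then 1 else 0,
             if v.unpair.2.unpair.2.unpair.2 ∈ X then 1 else 0)) := by
        funext v
        refine if_congr ?_ rfl rfl
        simp only [Q]
        by_cases m1 : v.unpair.2.unpair.1 ∈ X <;>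
        by_cases m2 : v.unpair.2.unpair.2.unpair.1 ∈ X <;>
        by_cases m3 : v.unpair.2.unpair.2.unpair.2 ∈ X <;> simp [m1, m2, m3]
      rw [h7]
      exact h6
    obtain ⟨h, hh, hhP⟩ := cin_find (P := Q) hP hex
    -- the decision procedure
    have hy : ComputableIn O (fun m : ℕ => Nat.pair e m + 1) :=
      cin_of_comp (Primrec.succ.comp (Primrec₂.natPair.comp (Primrec.const e)
        Primrec.id)).to_comp
    have hsum : Primrec (fun w : ℕ => w.unpair.1 + w.unpair.2.unpair.1 + w.unpair.2.unpair.2 + 1) := by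
      have g0 : Primrec (fun v : ℕ => v.unpair.1) := Primrec.fst.comp Primrec.unpair
      have g1 : Primrec (fun v : ℕ => v.unpair.2.unpair.1) :=
        Primrec.fst.comp (Primrec.unpair.comp (Primrec.snd.comp Primrec.unpair))
      have g2 : Primrec (fun v : ℕ => v.unpair.2.unpair.2) :=
        Primrec.snd.comp (Primrec.unpair.comp (Primrec.snd.comp Primrec.unpair))
      exact Primrec.succ.comp (Primrec.nat_add.comp (Primrec.nat_add.comp g0 g1) g2)
    let B : ℕ → ℕ := fun m => (h (Nat.pair e m + 1)).unpair.1 +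
      (h (Nat.pair e m + 1)).unpair.2.unpair.1 + (h (Nat.pair e m + 1)).unpair.2.unpair.2 + 1
    have hL : ComputableIn O (fun m : ℕ => (List.range (B m)).map (fA A)) := by
      refine cin_comp_nat (h := fun m => (List.range m).map (fA A)) (cin_list (cin_fA A hAO)) ?_
      exact cin_comp (G := fun w : ℕ => w.unpair.1 + w.unpair.2.unpair.1 +
        w.unpair.2.unpair.2 + 1) hsum.to_comp (cin_comp_nat hh hy)
    have hdec : Primrec (fun p : List ℕ × ℕ => if (∃ a ∈ p.1, a = p.2) then 1 else 0) := by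
      refine Primrec.ite ?_ (Primrec.const 1) (Primrec.const 0)
      exact (PrimrecRel.exists_mem_list (R := fun a b : ℕ => a = b) Primrec.eq).comp
        Primrec.fst Primrec.snd
    have hfin := cin_comp hdec.to_comp (cin_pair hL hy)
    rw [cin_nat] at hfin
    rw [RecursiveIn.iff_nat]
    refine hfin.of_eq ?_
    intro m
    show Part.some _ = Part.some _
    congr 1
    have : (∃ a ∈ (List.range (B m)).map (fA A), a = Nat.pair e m + 1) ↔
        m ∈ {n | (g n).Dom} := by
      simp only [Set.mem_ofPred_eq, he m]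
      constructor
      · rintro ⟨a, ha, rfl⟩
        obtain ⟨s, _, hs⟩ := List.mem_map.1 ha
        exact ⟨s, hs⟩
      · rintro ⟨s, hs⟩
        obtain ⟨⟨q1, q2, q3⟩, q0, q4, q5, q6⟩ := hhP (Nat.pair e m + 1)
        obtain ⟨s', hs', hs2⟩ := F1 (fA A) X _ hc1 hc2 hF0 q1 q2 q3 q0 q4 q5 q6 s hs
        exact ⟨_, List.mem_map.2 ⟨s', List.mem_range.2 (by simp only [B]; omega), hs2⟩, rfl⟩
    exact if_congr this rfl rfl

end Pool.Agent.Helper7.HT2
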